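import Pool.Agent.Y790.TG.Fin
import Pool.Agent.Y790.TG.Harm

/-!
# For every `k` all but finitely many lobsters with at most `k` leaves are harmonious

The theorem is proved for all trees with at most `k` leaves: if they have sufficiently many vertices, they
have an `α`-labelling (`Pool.Agent.Y790.TG.allTreeG`, the construction is described in
`MP_5799c5_co/FewLeaves`), and a tree with an `α`-labelling `f` with the threshold `p` is harmonious: replace
the labels `f x < p` by `p - 1 - f x`.
-/

set_option autoImplicit false

namespace Pool.Agent.Results.MP_9ddc60_co.FewLeaves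

/-- For every `k` there is `N` such that every finite tree `T` (in particular, every lobster) with at most `k`
leaves (vertices of degree one) and at least `N` vertices is harmonious: with `q` edges there is a labelling
`l` of the vertices by residues modulo `q` such that exactly one residue is the label of two vertices, every
other residue is the label of exactly one vertex, and different edges `a b` have different sums
`l a + l b`. -/
theorem result (k : ℕ) : ∃ N : ℕ, 2 ≤ N ∧ ∀ (V : Type) [Fintype V] (T : SimpleGraph V), T.IsTree →
    {x : V | (T.neighborSet x).ncard = 1}.ncard ≤ k → N ≤ Fintype.card V →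
    ∃ l : V → ZMod T.edgeSet.ncard,
      (∃ r : ZMod T.edgeSet.ncard, {v | l v = r}.ncard = 2 ∧
        ∀ s : ZMod T.edgeSet.ncard, s ≠ r → {v | l v = s}.ncard = 1) ∧
      ∀ a b c d : V, T.Adj a b → T.Adj c d → l a + l b = l c + l d → s(a, b) = s(c, d) := by
  obtain ⟨N, hN⟩ := Pool.Agent.Y790.TG.allTreeG k
  refine ⟨max 2 N, le_max_left _ _, fun V _ T hT hk hV => ?_⟩
  have h := Pool.Agent.Y790.TG.harm V T hT
    ((le_max_left _ _).trans hV) (hN V T hT hk ((le_max_right _ _).trans hV))
  rw [← Pool.Agent.Y790.TG.Harm.ncard_edge T hT] at h
  exact h

end Pool.Agent.Results.MP_9ddc60_co.FewLeaves
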